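import Mathlib
import Pool.Agent.Q4.Hall.OptLang

set_option autoImplicit false

/-!
# Integral points on Weierstrass curves with abscissae at the convergents of algebraic numbers

`X = F(q, p)` with `F ∈ ℤ[U, V]` of even degree `D`, at all rational approximations `p / q` with
`|ξ - p / q| ≤ q ^ (η - 2)` of an algebraic number `ξ` of degree `r ≥ 3` (for instance at all
convergents). Every Weierstrass curve `Y² = X³ + A X + B` with an integral point of abscissa `X` has
`max(|A|, |B|) > q ^ (1 - 2/r - ε)`.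
-/

namespace Pool.Agent.Results.MP_a1107e_nt.AbscissaeAtConvergents

open MvPolynomial

/-- the value `F(q, p)` -/
noncomputable def value (F : MvPolynomial (Fin 2) ℤ) (q : ℕ) (p : ℤ) : ℤ :=
  eval (fun i => if i = 0 then (q : ℤ) else p) F

/-- the value at `(1, ξ)` of the homogeneous part of degree `m` -/
noncomputable def atInfinity (ξ : ℝ) (m : ℕ) (F : MvPolynomial (Fin 2) ℤ) : ℝ :=
  aeval (fun i : Fin 2 => (if i = 0 then (1 : ℝ) else ξ)) (homogeneousComponent m F)

/-- the change of names of the variables -/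
def nm : Fin 2 → Option Unit := fun i => if i = 0 then none else some ()

lemma nm_inj : Function.Injective nm := by
  intro i j h
  fin_cases i <;> fin_cases j <;> simp_all [nm]

lemma value_eq (F : MvPolynomial (Fin 2) ℤ) (q : ℕ) (x : Unit → ℤ) :
    eval (Pool.Agent.Q4.Tube.px q x) (rename nm F) = value F q (x ()) := by
  unfold value
  rw [eval_rename]
  congr 1
  congr 1
  funext i
  fin_cases i <;> simp [nm, Pool.Agent.Q4.Tube.px]

lemma top_eq (F : MvPolynomial (Fin 2) ℤ) (m : ℕ) (θ : Unit → ℝ) :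
    Pool.Agent.Q4.Cov.topv m (rename nm F) θ = atInfinity (θ ()) m F := by
  unfold Pool.Agent.Q4.Cov.topv atInfinity
  have h1 : homogeneousComponent m (rename nm F) = rename nm (homogeneousComponent m F) := by
    have h2 : F = ∑ i ∈ Finset.range (F.totalDegree + 1), homogeneousComponent i F :=
      (sum_homogeneousComponent F).symm
    conv_lhs => rw [h2]
    rw [map_sum, map_sum]
    by_cases hm : m ∈ Finset.range (F.totalDegree + 1)
    · rw [Finset.sum_eq_single m]
      · rw [homogeneousComponent_of_mem ((homogeneousComponent_isHomogeneous m F).rename_isHomogeneous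
          (f := nm)), if_pos rfl]
      · intro i _ hi
        rw [homogeneousComponent_of_mem ((homogeneousComponent_isHomogeneous i F).rename_isHomogeneous
          (f := nm)), if_neg (Ne.symm hi)]
      · intro h
        exact absurd hm h
    · rw [Finset.sum_eq_zero, homogeneousComponent_eq_zero, map_zero]
      · rw [Finset.mem_range] at hm
        omega
      · intro i hi
        rw [homogeneousComponent_of_mem ((homogeneousComponent_isHomogeneous i F).rename_isHomogeneous
          (f := nm)), if_neg]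
        rintro rfl
        exact hm hi
  rw [h1, aeval_rename]
  congr 1
  congr 1
  funext i
  fin_cases i <;> simp [nm]

/-- Let `ξ` be a real algebraic number of degree `r ≥ 3`, `F ∈ ℤ[U, V]` of degree at most `D`, where
`D > 0` is even, and suppose that the homogeneous part of degree `D` of `F` does not vanish at
`(1, ξ)`. For every `ε > 0` there are `η > 0` and `N` such that for all integers `q ≥ N` and `p` with
`|ξ - p / q| ≤ q ^ (η - 2)` and all integers `Y`, `A`, `B` with `Y² = X³ + A X + B`, `X = F(q, p)`, and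
`4 A³ + 27 B² ≠ 0`: `q ^ (1 - 2/r - ε) < max(|A|, |B|)` and
`max(|X|, |Y|) < max(|A|, |B|) ^ (3 D r / (2 (r - 2)) + ε)`. -/
theorem result (ξ : ℝ) (hξ : IsAlgebraic ℚ ξ) (h3 : 3 ≤ (minpoly ℚ ξ).natDegree)
    (F : MvPolynomial (Fin 2) ℤ) (D : ℕ) (hD : 0 < D) (hD2 : Even D) (hF : F.totalDegree ≤ D)
    (htop : atInfinity ξ D F ≠ 0) (ε : ℝ) (hε : 0 < ε) :
    ∃ (η : ℝ) (N : ℕ), 0 < η ∧ ∀ q ≥ N, ∀ p : ℤ, |ξ - p / q| ≤ (q : ℝ) ^ (η - 2) → ∀ Y A B : ℤ,
      4 * A ^ 3 + 27 * B ^ 2 ≠ 0 → Y ^ 2 = (value F q p) ^ 3 + A * value F q p + B →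
      (q : ℝ) ^ (1 - 2 / ((minpoly ℚ ξ).natDegree : ℝ) - ε) < max |(A : ℝ)| |(B : ℝ)| ∧
      max |((value F q p : ℤ) : ℝ)| |(Y : ℝ)| < (max |(A : ℝ)| |(B : ℝ)|)
        ^ (3 * (D : ℝ) * (minpoly ℚ ξ).natDegree / (2 * ((minpoly ℚ ξ).natDegree - 2)) + ε) := by
  classical
  obtain ⟨k, hk⟩ := hD2
  rw [← two_mul] at hk
  subst hk
  have hk0 : 0 < k := by omega
  have hkr : (0 : ℝ) < k := by exact_mod_cast hk0
  have hF' : (rename nm F).totalDegree ≤ 2 * k := (totalDegree_rename_le _ _).trans hF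
  have htop' : Pool.Agent.Q4.Cov.topv (2 * k) (rename nm F) (fun _ : Unit => ξ) ≠ 0 := by
    rw [top_eq]
    exact htop
  set r : ℝ := ((minpoly ℚ ξ).natDegree : ℝ) with hr
  have hr3 : 3 ≤ r := by
    rw [hr]
    exact_mod_cast h3
  have hr2 : 0 < r - 2 := by linarith
  set c : ℝ := 1 - 2 / r with hc
  have hc0 : 0 < c := by
    rw [hc, sub_pos, div_lt_one (by linarith)]
    linarith
  have hc1 : c < 1 := by
    have : 0 < 2 / r := by positivity
    linarith
  -- the exponents
  set e1 : ℝ := max (c - ε) 0 with he1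
  have he10 : 0 ≤ e1 := le_max_right _ _
  have he11 : e1 < c := max_lt (by linarith) hc0
  set e2 : ℝ := 3 * k / (3 * k / c + ε / 2) with he2
  have he20 : 0 < e2 := by positivity
  have he21 : e2 < c := by
    rw [he2, div_lt_iff₀ (by positivity)]
    have h1 : c * (3 * k / c + ε / 2) = 3 * k + c * (ε / 2) := by field_simp
    rw [h1]
    have : 0 < c * (ε / 2) := by positivity
    linarith
  obtain ⟨η1, N1, hη1, h1⟩ := Pool.Agent.Q4.Hall.lang_mainO (fun _ => ξ) hξ h3 hF' hk0 htop' he10
    (by rw [← hr]; exact he11)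
  obtain ⟨η2, N2, hη2, h2⟩ := Pool.Agent.Q4.Hall.lang_mainO (fun _ => ξ) hξ h3 hF' hk0 htop' he20.le
    (by rw [← hr]; exact he21)
  obtain ⟨η3, N3, hη3, h4⟩ := Pool.Agent.Q4.Hall.size_mainO (fun _ : Unit => ξ) hF' hk0 he20
    (by linarith) (half_pos hε)
  refine ⟨min η1 (min η2 η3), max (max N1 N2) (max N3 1), lt_min hη1 (lt_min hη2 hη3),
    fun q hq p hp Y A B hd heq => ?_⟩
  have hq1 : 1 ≤ q := (le_max_right _ _).trans ((le_max_right _ _).trans hq)
  have hqr : (1 : ℝ) ≤ q := by exact_mod_cast hq1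
  have hqp : (0 : ℝ) < q := by linarith
  have hx : ∀ e, min η1 (min η2 η3) ≤ e → (q : ℝ) * |ξ * q - p| ≤ (q : ℝ) ^ e := by
    intro e he
    have hp' : |ξ - p / q| ≤ (q : ℝ) ^ (e - 2) :=
      hp.trans (Real.rpow_le_rpow_of_exponent_le hqr (by linarith))
    have g2 : ξ * q - p = q * (ξ - p / q) := by field_simp
    have g3 : (q : ℝ) ^ (e - 2) = (q : ℝ) ^ e / q ^ 2 := by
      rw [Real.rpow_sub hqp]
      norm_num
    rw [g3] at hp'
    rw [g2, abs_mul, abs_of_pos hqp]
    calc (q : ℝ) * (q * |ξ - p / q|) ≤ q * (q * ((q : ℝ) ^ e / q ^ 2)) := by gcongr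
      _ = (q : ℝ) ^ e := by field_simp
  have heq' : Y ^ 2 = (eval (Pool.Agent.Q4.Tube.px q (fun _ => p)) (rename nm F)) ^ 3
      + A * (eval (Pool.Agent.Q4.Tube.px q (fun _ => p)) (rename nm F)) + B := by
    rw [value_eq]
    exact heq
  constructor
  · have h5 := h1 q ((le_max_left _ _).trans ((le_max_left _ _).trans hq)) (fun _ => p)
      (hx _ (min_le_left _ _)) Y A B hd heq'
    exact lt_of_le_of_lt (Real.rpow_le_rpow_of_exponent_le hqr (le_max_left _ _)) h5
  · have h5 := h2 q ((le_max_right _ _).trans ((le_max_left _ _).trans hq)) (fun _ => p)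
      (hx _ ((min_le_right _ _).trans (min_le_left _ _))) Y A B hd heq'
    have h6 := h4 q ((le_max_left _ _).trans ((le_max_right _ _).trans hq)) (fun _ => p)
      (hx _ ((min_le_right _ _).trans (min_le_right _ _))) Y A B heq' h5
    rw [value_eq] at h6
    refine h6.trans_le (le_of_eq ?_)
    congr 1
    have h7 : 3 * (k : ℝ) / e2 = 3 * k / c + ε / 2 := by
      rw [he2]
      field_simp
    have h8 : 3 * (k : ℝ) / c = 3 * ((2 * k : ℕ) : ℝ) * r / (2 * (r - 2)) := by
      have h9 : c = (r - 2) / r := by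
        rw [hc]
        have : r ≠ 0 := by linarith
        field_simp
      rw [h9]
      push_cast
      field_simp
    rw [h7, h8]
    ring

end Pool.Agent.Results.MP_a1107e_nt.AbscissaeAtConvergents
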