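import Mathlib
import Pool.Agent.Q4.Hall.Bound

set_option autoImplicit false

/-!
# Integral points on Weierstrass curves with polynomial abscissae near an irrational ray

`X = F(q, x₁, …, xₙ)` with `F` of even degree `D`, at integral points near the ray spanned by
`(1, θ₁, …, θₙ)`, for algebraic numbers `θᵢ`. Every Weierstrass curve `Y² = X³ + A X + B` with an
integral point of abscissa `X` has `max(|A|, |B|) > q ^ (1 - ε)`, and
`max(|X|, |Y|) < max(|A|, |B|) ^ (3 D / 2 + ε)`.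
-/

namespace Pool.Agent.Results.MP_a1107e_nt.AbscissaeNearRays

open MvPolynomial

/-- the point `(q, x₁, …, xₙ)`; the variable `none` is the one of `q` -/
def point {n : ℕ} (q : ℕ) (x : Fin n → ℤ) : Option (Fin n) → ℤ := fun o => o.elim (q : ℤ) x

/-- the integral points `(q, x₁, …, xₙ)` near the ray spanned by `(1, θ₁, …, θₙ)`: `q = u w` where `u`
is composed of primes of `S` and `w ≤ q ^ η`, and `|θₛ q - xₛ| ≤ q ^ η` for all `s` -/
def NearRay {n : ℕ} (S : Finset ℕ) (θ : Fin n → ℝ) (η : ℝ) (q : ℕ) (x : Fin n → ℤ) : Prop :=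
  (∃ u w : ℕ, q = u * w ∧ u.primeFactors ⊆ S ∧ (w : ℝ) ≤ (q : ℝ) ^ η) ∧
  ∀ s, |θ s * q - x s| ≤ (q : ℝ) ^ η

/-- the value at `(1, θ)` of the homogeneous part of degree `m` -/
noncomputable def atInfinity {n : ℕ} (θ : Fin n → ℝ) (m : ℕ) (F : MvPolynomial (Option (Fin n)) ℤ) : ℝ :=
  aeval (fun o : Option (Fin n) => (o.elim 1 θ : ℝ)) (homogeneousComponent m F)

/-- Let `1, θ₁, …, θₙ` be real algebraic numbers, linearly independent over `ℚ`, and `S` a finite set
of primes. Let `F ∈ ℤ[X₀, …, Xₙ]` have degree at most `D`, where `D > 0` is even, and suppose that the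
homogeneous part of degree `D` of `F` does not vanish at `(1, θ)`. For every `ε > 0` there are `η > 0`
and `N` such that for all integral points `x = (q, x₁, …, xₙ)` near the ray with `q ≥ N` and all
integers `Y`, `A`, `B` with `Y² = X³ + A X + B`, `X = F(x)`, and `4 A³ + 27 B² ≠ 0`:
`q ^ (1 - ε) < max(|A|, |B|)` and `max(|X|, |Y|) < max(|A|, |B|) ^ (3 D / 2 + ε)`. -/
theorem result (n : ℕ) (θ : Fin n → ℝ) (halg : ∀ s, IsAlgebraic ℚ (θ s))
    (hind : LinearIndependent ℚ (fun o : Option (Fin n) => (o.elim 1 θ : ℝ))) (S : Finset ℕ)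
    (F : MvPolynomial (Option (Fin n)) ℤ) (D : ℕ) (hD : 0 < D) (hD2 : Even D)
    (hF : F.totalDegree ≤ D) (htop : atInfinity θ D F ≠ 0) (ε : ℝ) (hε : 0 < ε) :
    ∃ (η : ℝ) (N : ℕ), 0 < η ∧ ∀ q ≥ N, ∀ x, NearRay S θ η q x → ∀ Y A B : ℤ,
      4 * A ^ 3 + 27 * B ^ 2 ≠ 0 →
      Y ^ 2 = (eval (point q x) F) ^ 3 + A * (eval (point q x) F) + B →
      (q : ℝ) ^ (1 - ε) < max |(A : ℝ)| |(B : ℝ)| ∧
      max |((eval (point q x) F : ℤ) : ℝ)| |(Y : ℝ)|
        < (max |(A : ℝ)| |(B : ℝ)|) ^ (3 * (D : ℝ) / 2 + ε) := by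
  classical
  have hf : ∀ x : ℕ, x.primeFactors ⊆ S → x.primeFactors ⊆ S.filter Nat.Prime := fun x hx p hp =>
    Finset.mem_filter.2 ⟨hx hp, Nat.prime_of_mem_primeFactors hp⟩
  obtain ⟨k, hk⟩ := hD2
  rw [← two_mul] at hk
  subst hk
  have hk0 : 0 < k := by omega
  have hkr : (0 : ℝ) < k := by exact_mod_cast hk0
  set S' := S.filter Nat.Prime with hS'
  have hS : ∀ p ∈ S', p.Prime := fun p hp => (Finset.mem_filter.1 hp).2
  -- the exponents
  set e1 : ℝ := max (1 - ε) 0 with he1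
  have he10 : 0 ≤ e1 := le_max_right _ _
  have he11 : e1 < 1 := max_lt (by linarith) one_pos
  set e2 : ℝ := 3 * k / (3 * k + ε / 2) with he2
  have he20 : 0 < e2 := by positivity
  have he21 : e2 < 1 := by
    rw [he2, div_lt_one (by positivity)]
    linarith
  obtain ⟨η1, N1, hη1, h1⟩ := Pool.Agent.Q4.Hall.lang_main S' hS halg hind hF hk0 htop he10 he11
  obtain ⟨η2, N2, hη2, h2⟩ := Pool.Agent.Q4.Hall.lang_main S' hS halg hind hF hk0 htop he20.le he21
  obtain ⟨η3, N3, hη3, h3⟩ := Pool.Agent.Q4.Hall.size_main S' (θ := θ) hF hk0 he20 he21.le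
    (half_pos hε)
  refine ⟨min η1 (min η2 η3), max (max N1 N2) (max N3 1), lt_min hη1 (lt_min hη2 hη3),
    fun q hq x hx Y A B hd heq => ?_⟩
  have hq1 : 1 ≤ q := (le_max_right _ _).trans ((le_max_right _ _).trans hq)
  have hx' : Pool.Agent.Q4.Tube.Near S' θ (min η1 (min η2 η3)) q x := by
    obtain ⟨u, w, g1, g2, g3⟩ := hx.1
    exact ⟨⟨u, w, g1, hf _ g2, g3⟩, hx.2⟩
  have hqr : (1 : ℝ) ≤ q := by exact_mod_cast hq1
  constructor
  · have h4 := h1 q ((le_max_left _ _).trans ((le_max_left _ _).trans hq)) x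
      (Pool.Agent.Q4.Hall.Near.mono (min_le_left _ _) hq1 hx') Y A B hd heq
    exact lt_of_le_of_lt (Real.rpow_le_rpow_of_exponent_le hqr (le_max_left _ _)) h4
  · have h4 := h2 q ((le_max_right _ _).trans ((le_max_left _ _).trans hq)) x
      (Pool.Agent.Q4.Hall.Near.mono ((min_le_right _ _).trans (min_le_left _ _)) hq1 hx') Y A B hd heq
    have h5 := h3 q ((le_max_left _ _).trans ((le_max_right _ _).trans hq)) x
      (Pool.Agent.Q4.Hall.Near.mono ((min_le_right _ _).trans (min_le_right _ _)) hq1 hx') Y A B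
      heq h4
    refine h5.trans_le (le_of_eq ?_)
    congr 1
    rw [he2]
    push_cast
    field_simp
    ring

end Pool.Agent.Results.MP_a1107e_nt.AbscissaeNearRays
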