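import Pool.Agent.Q321.HL.Count

/-!
The Hall–Lang conjecture for the curves with full rational 2-torsion, all curves simultaneously
and without any bound on the size of the points: integral points whose ordinate has few exponents
(for example few prime factors) and a small radical.
-/

set_option autoImplicit false

namespace Pool.Agent.Results.MP_a1107e_nt.FewExponentOrdinates

open Finset

/-- the height `max |A| |B|` of the curve `y ^ 2 = x ^ 3 + A x + B` -/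
def height (A B : ℤ) : ℕ := max A.natAbs B.natAbs

/-- the product of the primes dividing `y` -/
def radical (y : ℤ) : ℕ := ∏ p ∈ y.natAbs.primeFactors, p

/-- The number of different exponents, in `y`, of the primes not dividing `4 A ^ 3 + 27 B ^ 2`, plus
the number of the primes dividing both `y` and `4 A ^ 3 + 27 B ^ 2`. It is at most the number of
primes dividing `y`. -/
def complexity (A B y : ℤ) : ℕ :=
  ((y.natAbs.primeFactors.filter (fun p : ℕ => ¬ (p : ℤ) ∣ 4 * A ^ 3 + 27 * B ^ 2)).image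
    (fun p => y.natAbs.factorization p)).card +
  (y.natAbs.primeFactors.filter (fun p : ℕ => (p : ℤ) ∣ 4 * A ^ 3 + 27 * B ^ 2)).card

/-- `(x, y)` is an integral point of the elliptic curve `y ^ 2 = x ^ 3 + A x + B` with full rational
2-torsion and height `H = max |A| |B| ≤ X`, the complexity of `y` is at most `n`, its radical at
most `H ^ E`, and `max |x| |y| > L H ^ L`. -/
structure Exceptional (n : ℕ) (E L X : ℝ) (A B x y : ℤ) : Prop where
  nonsingular : 4 * A ^ 3 + 27 * B ^ 2 ≠ 0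
  eqn : y ^ 2 = x ^ 3 + A * x + B
  two_torsion : ∃ e f g : ℤ, ∀ t : ℤ, t ^ 3 + A * t + B = (t - e) * (t - f) * (t - g)
  height_le : (height A B : ℝ) ≤ X
  complexity_le : complexity A B y ≤ n
  radical_le : (radical y : ℝ) ≤ (height A B : ℝ) ^ E
  large : L * (height A B : ℝ) ^ L < max |(x : ℝ)| |(y : ℝ)|

/-- the isomorphism over `ℚ` with parameter `r` maps the second curve and point to the first
ones -/
def Iso (r : ℚ) (A B x y A' B' x' y' : ℤ) : Prop :=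
  (A : ℚ) = r ^ 4 * A' ∧ (B : ℚ) = r ^ 6 * B' ∧ (x : ℚ) = r ^ 2 * x' ∧ (y : ℚ) = r ^ 3 * y'

/-- For all `n`, `E` and `ε > 0` there are `L` and `C` such that for every `X ≥ 1` the exceptional
points form at most `C X ^ ε` isomorphism classes; there is no bound on the size of the points. -/
theorem result (n : ℕ) (E ε : ℝ) (hε : 0 < ε) : ∃ L C : ℝ, 0 < L ∧ 0 < C ∧ ∀ X : ℝ, 1 ≤ X →
    ∃ S : Finset (ℤ × ℤ × ℤ × ℤ), (S.card : ℝ) ≤ C * X ^ ε ∧
      (∀ s ∈ S, Exceptional n E L X s.1 s.2.1 s.2.2.1 s.2.2.2) ∧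
      ∀ A B x y : ℤ, Exceptional n E L X A B x y →
        ∃ s ∈ S, ∃ r : ℚ, r ≠ 0 ∧ Iso r A B x y s.1 s.2.1 s.2.2.1 s.2.2.2 := by
  classical
  obtain ⟨R, hR⟩ : ∃ R : ℕ, R = ⌈E⌉₊ + 1 := ⟨_, rfl⟩
  have hR1 : 1 ≤ R := by omega
  have hER : E ≤ (R : ℝ) := by
    have := Nat.le_ceil E
    rw [hR]
    push_cast
    linarith
  obtain ⟨K₀, C₀, hK₀, hC₀, hcore⟩ := Pool.Agent.Q130.SZ.np_core (n + 1) (ε / 2) 4 (1 / 8) R
    (by positivity) (by norm_num) (by norm_num) hR1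
  refine ⟨20 + 2 * (K₀ + 1), 4 * C₀ ^ 2, by linarith, by positivity, fun X hX => ?_⟩
  have hX0 : 0 < X := by linarith
  obtain ⟨T, hT1, hT2⟩ := Pool.Agent.Q321.HL.fin_of_bound
    (fun q : ℕ × ℕ => ∃ M : ℝ, 1 ≤ M ∧ M ≤ X ∧ Pool.Agent.Q130.SZ.NP (n + 1) ((4 * M) ^ R) q ∧
      1 / 8 * M ^ K₀ ≤ ((q.1 + q.2 : ℕ) : ℝ)) (C₀ * X ^ (ε / 2)) (hcore X hX)
  obtain ⟨Rt, hRt⟩ : ∃ Rt : Finset ℚ, Rt =
      T.image (fun q => ((q.1 + q.2 : ℕ) : ℚ) / (q.1 : ℚ)) ∪
      T.image (fun q => (q.1 : ℚ) / ((q.1 + q.2 : ℕ) : ℚ)) := ⟨_, rfl⟩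
  have hRtc : (Rt.card : ℝ) ≤ 2 * T.card := by
    have h1 : Rt.card ≤ T.card + T.card := by
      rw [hRt]
      exact (card_union_le _ _).trans (Nat.add_le_add card_image_le card_image_le)
    have h2 : (Rt.card : ℝ) ≤ T.card + T.card := by exact_mod_cast h1
    linarith
  -- the ratios of an exceptional point
  obtain ⟨L, hL⟩ : ∃ L : ℝ, L = 20 + 2 * (K₀ + 1) := ⟨_, rfl⟩
  rw [← hL]
  let P : ℚ × ℚ → ℤ × ℤ × ℤ × ℤ → Prop := fun ρ s =>
    Exceptional n E L X s.1 s.2.1 s.2.2.1 s.2.2.2 ∧ s.2.2.2 ≠ 0 ∧ ∃ e f g : ℤ,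
      Pool.Agent.Q321.HL.Split s.1 s.2.1 e f g ∧ s.2.2.1 - e ≠ 0 ∧
      ((s.2.2.1 - f : ℤ) : ℚ) = ρ.1 * ((s.2.2.1 - e : ℤ) : ℚ) ∧
      ((s.2.2.1 - g : ℤ) : ℚ) = ρ.2 * ((s.2.2.1 - e : ℤ) : ℚ)
  have hP : ∀ A B x y : ℤ, Exceptional n E L X A B x y →
      ∃ ρ ∈ Rt ×ˢ Rt, P ρ (A, B, x, y) := by
    intro A B x y h
    obtain ⟨e, f, g, hefg⟩ := h.two_torsion
    have hs := Pool.Agent.Q321.HL.split_of_cubic hefg
    have hs' : Pool.Agent.Q321.HL.Split A B e g f := ⟨by linarith [hs.1], by linarith [hs.2.1], by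
      have := hs.2.2
      linarith⟩
    have hxy : y ^ 2 = (x - e) * (x - f) * (x - g) := by rw [h.eqn, hs.cubic]
    have hxy' : y ^ 2 = (x - e) * (x - g) * (x - f) := by rw [h.eqn, hs'.cubic]
    have hH : 1 ≤ Pool.Agent.Q321.HL.ht A B := by
      unfold Pool.Agent.Q321.HL.ht
      by_contra hcon
      have h1 : A.natAbs = 0 := by omega
      have h2 : B.natAbs = 0 := by omega
      apply h.nonsingular
      rw [Int.natAbs_eq_zero.1 h1, Int.natAbs_eq_zero.1 h2]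
      norm_num
    obtain ⟨H, hHd⟩ : ∃ H : ℕ, H = Pool.Agent.Q321.HL.ht A B := ⟨_, rfl⟩
    have hHt : height A B = H := hHd.symm
    have hH1 : (1 : ℝ) ≤ H := by
      rw [hHd]
      exact_mod_cast hH
    have hH0 : (0 : ℝ) < H := by linarith
    obtain ⟨t, ht⟩ : ∃ t : ℝ, t = (H : ℝ) ^ (K₀ + 1) := ⟨_, rfl⟩
    have ht1 : (1 : ℝ) ≤ t := by
      rw [ht]
      exact Real.one_le_rpow hH1 (by linarith)
    have htH : (H : ℝ) ≤ t := by
      rw [ht]
      calc (H : ℝ) = (H : ℝ) ^ (1 : ℝ) := (Real.rpow_one _).symm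
        _ ≤ _ := Real.rpow_le_rpow_of_exponent_le hH1 (by linarith)
    have hA : |(A : ℝ)| ≤ H := by
      rw [hHd]
      unfold Pool.Agent.Q321.HL.ht
      have h1 : |A| ≤ ((max A.natAbs B.natAbs : ℕ) : ℤ) := by
        rw [Int.abs_eq_natAbs]
        exact_mod_cast le_max_left _ _
      have h2 : ((|A| : ℤ) : ℝ) ≤ (((max A.natAbs B.natAbs : ℕ) : ℤ) : ℝ) := Int.cast_le.2 h1
      rw [Int.cast_abs, Int.cast_natCast] at h2
      exact h2
    have hB : |(B : ℝ)| ≤ H := by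
      rw [hHd]
      unfold Pool.Agent.Q321.HL.ht
      have h1 : |B| ≤ ((max A.natAbs B.natAbs : ℕ) : ℤ) := by
        rw [Int.abs_eq_natAbs]
        exact_mod_cast le_max_right _ _
      have h2 : ((|B| : ℤ) : ℝ) ≤ (((max A.natAbs B.natAbs : ℕ) : ℤ) : ℝ) := Int.cast_le.2 h1
      rw [Int.cast_abs, Int.cast_natCast] at h2
      exact h2
    have hlarge := h.large
    rw [hHt] at hlarge
    have hLH : 20 * t ^ 2 ≤ L * (H : ℝ) ^ L := by
      have h1 : t ^ 2 ≤ (H : ℝ) ^ L := by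
        rw [ht, ← Real.rpow_natCast, ← Real.rpow_mul hH0.le]
        apply Real.rpow_le_rpow_of_exponent_le hH1
        rw [hL]
        push_cast
        linarith
      have h2 : (20 : ℝ) ≤ L := by rw [hL]; linarith
      have h3 : 0 ≤ t ^ 2 := by positivity
      calc 20 * t ^ 2 ≤ L * t ^ 2 := mul_le_mul_of_nonneg_right h2 h3
        _ ≤ L * (H : ℝ) ^ L := mul_le_mul_of_nonneg_left h1 (by linarith)
    have hx5 : 5 * t < |(x : ℝ)| := by
      by_contra hcon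
      push Not at hcon
      have hyle : |(y : ℝ)| ≤ 20 * t ^ 2 := by
        have h1 : (y : ℝ) ^ 2 = (x : ℝ) ^ 3 + A * x + B := by exact_mod_cast h.eqn
        have h2 : (x : ℝ) ^ 3 + A * x + B ≤ |(x : ℝ)| ^ 3 + H * |(x : ℝ)| + H := by
          have a1 : (x : ℝ) ^ 3 ≤ |(x : ℝ)| ^ 3 := by
            rw [← abs_pow]
            exact le_abs_self _
          have a2 : (A : ℝ) * x ≤ H * |(x : ℝ)| := by
            calc (A : ℝ) * x ≤ |(A : ℝ) * x| := le_abs_self _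
              _ = |(A : ℝ)| * |(x : ℝ)| := abs_mul _ _
              _ ≤ _ := mul_le_mul_of_nonneg_right hA (abs_nonneg _)
          have a3 : (B : ℝ) ≤ H := (le_abs_self _).trans hB
          linarith
        have h3 : |(x : ℝ)| ^ 3 ≤ (5 * t) ^ 3 := pow_le_pow_left₀ (abs_nonneg _) hcon 3
        have h4 : H * |(x : ℝ)| ≤ t * (5 * t) :=
          mul_le_mul htH hcon (abs_nonneg _) (by linarith)
        have h5 : t ^ 2 ≤ t ^ 4 := pow_le_pow_right₀ ht1 (by norm_num)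
        have h6 : t ^ 3 ≤ t ^ 4 := pow_le_pow_right₀ ht1 (by norm_num)
        have h7 : t ≤ t ^ 4 := by
          calc t = t ^ 1 := (pow_one t).symm
            _ ≤ t ^ 4 := pow_le_pow_right₀ ht1 (by norm_num)
        have h8 : |(y : ℝ)| ^ 2 ≤ (20 * t ^ 2) ^ 2 := by
          rw [sq_abs, h1]
          have e1 : (20 * t ^ 2) ^ 2 = 400 * t ^ 4 := by ring
          have e2 : (5 * t) ^ 3 = 125 * t ^ 3 := by ring
          have e3 : t * (5 * t) = 5 * t ^ 2 := by ring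
          rw [e1]
          rw [e2] at h3
          rw [e3] at h4
          linarith
        exact (pow_le_pow_iff_left₀ (abs_nonneg _) (by positivity) two_ne_zero).1 h8
      have hxle : |(x : ℝ)| ≤ 20 * t ^ 2 := by nlinarith
      have := max_le hxle hyle
      linarith
    have hx : 5 * (Pool.Agent.Q321.HL.ht A B : ℤ) < |x| := by
      have h1 : 5 * (H : ℝ) < |(x : ℝ)| := by linarith
      rw [← hHd]
      exact_mod_cast h1
    have hrad : (Pool.Agent.Q321.HL.rd y : ℝ) ≤ (4 * (Pool.Agent.Q321.HL.ht A B : ℝ)) ^ R := by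
      have h1 := h.radical_le
      rw [hHt] at h1
      rw [← hHd]
      refine (show (Pool.Agent.Q321.HL.rd y : ℝ) ≤ (H : ℝ) ^ E from h1).trans ?_
      calc (H : ℝ) ^ E ≤ (H : ℝ) ^ (R : ℝ) := Real.rpow_le_rpow_of_exponent_le hH1 hER
        _ = (H : ℝ) ^ R := Real.rpow_natCast _ _
        _ ≤ (4 * (H : ℝ)) ^ R := pow_le_pow_left₀ hH0.le (by linarith) R
    have hmem : ∀ q : ℕ × ℕ, Pool.Agent.Q130.SZ.NP (n + 1) ((4 * (H : ℝ)) ^ R) q →
        |(x : ℝ)| ≤ 8 * (H : ℝ) * ((q.1 + q.2 : ℕ) : ℝ) → q ∈ T := by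
      intro q h1 h2
      refine hT1 q ⟨H, hH1, ?_, h1, ?_⟩
      · have := h.height_le
        rwa [hHt] at this
      · have h3 : t = (H : ℝ) ^ K₀ * H := by
          rw [ht, Real.rpow_add hH0, Real.rpow_one]
        have h4 : (H : ℝ) ^ K₀ * H < 8 * (H : ℝ) * ((q.1 + q.2 : ℕ) : ℝ) := by
          rw [← h3]
          linarith
        have h5 : (H : ℝ) * ((H : ℝ) ^ K₀) < H * (8 * ((q.1 + q.2 : ℕ) : ℝ)) := by linarith
        have h6 := lt_of_mul_lt_mul_left h5 hH0.le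
        linarith
    obtain ⟨q, hq1, hq2, hq3⟩ := Pool.Agent.Q321.HL.pair_of hs h.nonsingular hxy hx
      (show Pool.Agent.Q321.HL.cplx A B y ≤ n from h.complexity_le) hR1 hH hrad
    obtain ⟨q', hq1', hq2', hq3'⟩ := Pool.Agent.Q321.HL.pair_of hs' h.nonsingular hxy' hx
      (show Pool.Agent.Q321.HL.cplx A B y ≤ n from h.complexity_le) hR1 hH hrad
    rw [← hHd] at hq1 hq2 hq1' hq2'
    have hqT := hmem q hq1 hq2
    have hqT' := hmem q' hq1' hq2'
    have hRt1 : ∃ ρ ∈ Rt, ((x - f : ℤ) : ℚ) = ρ * ((x - e : ℤ) : ℚ) := by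
      rw [hRt]
      rcases hq3 with h1 | h1
      · exact ⟨_, mem_union_left _ (mem_image_of_mem _ hqT), h1⟩
      · exact ⟨_, mem_union_right _ (mem_image_of_mem _ hqT), h1⟩
    have hRt2 : ∃ ρ ∈ Rt, ((x - g : ℤ) : ℚ) = ρ * ((x - e : ℤ) : ℚ) := by
      rw [hRt]
      rcases hq3' with h1 | h1
      · exact ⟨_, mem_union_left _ (mem_image_of_mem _ hqT'), h1⟩
      · exact ⟨_, mem_union_right _ (mem_image_of_mem _ hqT'), h1⟩
    obtain ⟨ρ1, hρ1, hr1⟩ := hRt1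
    obtain ⟨ρ2, hρ2, hr2⟩ := hRt2
    have hne : ∀ e f g : ℤ, Pool.Agent.Q321.HL.Split A B e f g → x - e ≠ 0 := by
      intro e f g hs h0
      have h1 := hs.root_le
      have h2 : x = e := by linarith
      rw [h2] at hx
      have : (0 : ℤ) ≤ (Pool.Agent.Q321.HL.ht A B : ℤ) := Int.natCast_nonneg _
      linarith
    have he := hne e f g hs
    have hf := hne f e g ⟨by linarith [hs.1], by linarith [hs.2.1], by
      have := hs.2.2
      linarith⟩
    have hg := hne g e f ⟨by linarith [hs.1], by linarith [hs.2.1], by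
      have := hs.2.2
      linarith⟩
    have hy0 : y ≠ 0 := by
      intro h0
      have h1 : (x - e) * (x - f) * (x - g) = 0 := by
        rw [← hxy, h0]
        ring
      exact mul_ne_zero (mul_ne_zero he hf) hg h1
    exact ⟨(ρ1, ρ2), mem_product.2 ⟨hρ1, hρ2⟩, h, hy0, e, f, g, hs, he, hr1, hr2⟩
  -- the representatives
  let rep : ℚ × ℚ → ℤ × ℤ × ℤ × ℤ := fun ρ => if h : ∃ s, P ρ s then h.choose else (0, 0, 0, 0)
  have hrep : ∀ ρ s, P ρ s → P ρ (rep ρ) := by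
    intro ρ s hs
    have hex : ∃ s, P ρ s := ⟨s, hs⟩
    show P ρ (if h : ∃ s, P ρ s then h.choose else (0, 0, 0, 0))
    rw [dif_pos hex]
    exact hex.choose_spec
  refine ⟨((Rt ×ˢ Rt).filter (fun ρ => ∃ s, P ρ s)).image rep, ?_, ?_, ?_⟩
  · have h1 : (((Rt ×ˢ Rt).filter (fun ρ => ∃ s, P ρ s)).image rep).card ≤ Rt.card * Rt.card := by
      refine card_image_le.trans ((card_filter_le _ _).trans ?_)
      rw [card_product]
    have h2 : ((((Rt ×ˢ Rt).filter (fun ρ => ∃ s, P ρ s)).image rep).card : ℝ) ≤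
        (Rt.card : ℝ) * Rt.card := by exact_mod_cast h1
    have h3 : (Rt.card : ℝ) ≤ 2 * (C₀ * X ^ (ε / 2)) := by linarith
    have h4 : (0 : ℝ) ≤ Rt.card := Nat.cast_nonneg _
    have h5 : X ^ (ε / 2) * X ^ (ε / 2) = X ^ ε := by
      rw [← Real.rpow_add hX0]
      congr 1
      ring
    calc ((((Rt ×ˢ Rt).filter (fun ρ => ∃ s, P ρ s)).image rep).card : ℝ)
        ≤ (Rt.card : ℝ) * Rt.card := h2
      _ ≤ (2 * (C₀ * X ^ (ε / 2))) * (2 * (C₀ * X ^ (ε / 2))) :=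
          mul_le_mul h3 h3 h4 (h4.trans h3)
      _ = 4 * C₀ ^ 2 * (X ^ (ε / 2) * X ^ (ε / 2)) := by ring
      _ = _ := by rw [h5]
  · intro s hs
    obtain ⟨ρ, hρ, rfl⟩ := mem_image.1 hs
    obtain ⟨s', hs'⟩ := (mem_filter.1 hρ).2
    exact (hrep ρ s' hs').1
  · intro A B x y h
    obtain ⟨ρ, hρ, hPρ⟩ := hP A B x y h
    have hPr := hrep ρ _ hPρ
    refine ⟨rep ρ, mem_image_of_mem _ (mem_filter.2 ⟨hρ, _, hPρ⟩), ?_⟩
    obtain ⟨s', hs'⟩ : ∃ s', s' = rep ρ := ⟨_, rfl⟩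
    rw [← hs'] at hPr ⊢
    clear hs'
    obtain ⟨A', B', x', y'⟩ := s'
    obtain ⟨h1, hy0, e, f, g, hs, he, hf1, hg1⟩ := hPρ
    obtain ⟨h1', hy0', e', f', g', hs', he', hf1', hg1'⟩ := hPr
    simp only at h1 hy0 hs he hf1 hg1 h1' hy0' hs' he' hf1' hg1' ⊢
    have heq : y ^ 2 = (x - e) * (x - f) * (x - g) := by rw [h1.eqn, hs.cubic]
    have heq' : y' ^ 2 = (x' - e') * (x' - f') * (x' - g') := by rw [h1'.eqn, hs'.cubic]
    have hq : (y : ℚ) ^ 2 = ((x - e : ℤ) : ℚ) * ((x - f : ℤ) : ℚ) * ((x - g : ℤ) : ℚ) := by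
      exact_mod_cast heq
    have hq' : (y' : ℚ) ^ 2 = ((x' - e' : ℤ) : ℚ) * ((x' - f' : ℤ) : ℚ) * ((x' - g' : ℤ) : ℚ) := by
      exact_mod_cast heq'
    obtain ⟨lam, hlam⟩ : ∃ lam : ℚ, lam = ((x - e : ℤ) : ℚ) / ((x' - e' : ℤ) : ℚ) := ⟨_, rfl⟩
    have he0 : ((x - e : ℤ) : ℚ) ≠ 0 := by exact_mod_cast he
    have he0' : ((x' - e' : ℤ) : ℚ) ≠ 0 := by exact_mod_cast he'
    have hl0 : lam ≠ 0 := by rw [hlam]; exact div_ne_zero he0 he0'
    have hE : ((x - e : ℤ) : ℚ) = lam * ((x' - e' : ℤ) : ℚ) := by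
      rw [hlam]
      field_simp
    have hF : ((x - f : ℤ) : ℚ) = lam * ((x' - f' : ℤ) : ℚ) := by
      rw [hf1, hf1', hE]
      ring
    have hG : ((x - g : ℤ) : ℚ) = lam * ((x' - g' : ℤ) : ℚ) := by
      rw [hg1, hg1', hE]
      ring
    have hs1 : (e : ℚ) + f + g = 0 := by exact_mod_cast hs.1
    have hs1' : (e' : ℚ) + f' + g' = 0 := by exact_mod_cast hs'.1
    have hs2 : (e : ℚ) * f + e * g + f * g = A := by exact_mod_cast hs.2.1
    have hs2' : (e' : ℚ) * f' + e' * g' + f' * g' = A' := by exact_mod_cast hs'.2.1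
    have hs3 : (e : ℚ) * f * g = -B := by exact_mod_cast hs.2.2
    have hs3' : (e' : ℚ) * f' * g' = -B' := by exact_mod_cast hs'.2.2
    push_cast at hE hF hG hq hq'
    have hl1 : lam * ((e' : ℚ) + f' + g') = 0 := by rw [hs1', mul_zero]
    have hxl : (x : ℚ) = lam * x' := by linarith
    have hel : (e : ℚ) = lam * e' := by linarith
    have hfl : (f : ℚ) = lam * f' := by linarith
    have hgl : (g : ℚ) = lam * g' := by linarith
    have hAl : (A : ℚ) = lam ^ 2 * A' := by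
      rw [← hs2, ← hs2', hel, hfl, hgl]
      ring
    have hBl : (B : ℚ) = lam ^ 3 * B' := by
      have h2 : (B : ℚ) = -(e * f * g) := by linarith
      have h3 : (B' : ℚ) = -(e' * f' * g') := by linarith
      rw [h2, h3, hel, hfl, hgl]
      ring
    have hyl : (y : ℚ) ^ 2 = lam ^ 3 * (y' : ℚ) ^ 2 := by
      rw [hq, hq', hxl, hel, hfl, hgl]
      ring
    have hyq : (y : ℚ) ≠ 0 := by exact_mod_cast hy0
    have hyq' : (y' : ℚ) ≠ 0 := by exact_mod_cast hy0'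
    obtain ⟨r, hr⟩ : ∃ r : ℚ, r = y / (lam * y') := ⟨_, rfl⟩
    have hr2 : r ^ 2 = lam := by
      rw [hr, div_pow, hyl]
      field_simp
    have hr3 : r ^ 3 * y' = y := by
      have : r ^ 3 = r ^ 2 * r := by ring
      rw [this, hr2, hr]
      field_simp
    refine ⟨r, ?_, ?_, ?_, ?_, hr3.symm⟩
    · rw [hr]
      exact div_ne_zero hyq (mul_ne_zero hl0 hyq')
    · rw [hAl, ← hr2]
      ring
    · rw [hBl, ← hr2]
      ring
    · rw [hxl, ← hr2]

end Pool.Agent.Results.MP_a1107e_nt.FewExponentOrdinates
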